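import Mathlib

/-!
Sharp quantile bounds over the distributions with left endpoint 0 succeeding a given distribution
in the convex transform order.
-/

set_option autoImplicit false
set_option linter.unusedVariables false

noncomputable section

namespace Pool.Agent.Results.MP_4978a0_pr.SucceedingBounds

open MeasureTheory Set Filter Topology ProbabilityTheory
open scoped ENNReal

/-- distribution function -/
def DF (μ : Measure ℝ) (x : ℝ) : ℝ := μ.real (Iic x)

/-- quantile `F⁻¹(p) = inf {x : F(x) ≥ p}` -/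
def quantile (μ : Measure ℝ) (p : ℝ) : ℝ := sInf {x | p ≤ DF μ x}

/-- The support interval `[a_F, b_F]` of a distribution function. -/
def suppInt (μ : Measure ℝ) : Set ℝ := {x | (∀ y, x < y → 0 < DF μ y) ∧ ∀ y, y < x → DF μ y < 1}

/-- `W⁻¹ : [0,1] → [a_W, d_W]`, with `W⁻¹(0) = a_W`, `W⁻¹(1) = d_W ≤ ∞`, for the distribution
function `W` of `ν` with left endpoint `a`. -/
def winv (ν : Measure ℝ) (a q : ℝ) : EReal :=
  sInf ((fun x : ℝ => (x : EReal)) '' {x | a ≤ x ∧ q ≤ DF ν x})

/-- `F ⪰_c W`: the function `W⁻¹ ∘ F` is concave on the support interval of `F`. -/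
def Succeeds (μ ν : Measure ℝ) (a : ℝ) : Prop :=
  ∀ x ∈ suppInt μ, ∀ y ∈ suppInt μ, ∀ s t : ℝ, 0 ≤ s → 0 ≤ t → s + t = 1 →
    (s : EReal) * winv ν a (DF μ x) + (t : EReal) * winv ν a (DF μ y) ≤
      winv ν a (DF μ (s * x + t * y))

/-- The distribution function of `ν` is absolutely continuous, with support interval `[a, d)`, and
strictly increasing on that interval. -/
structure IsBase (ν : Measure ℝ) (a : ℝ) : Prop where
  prob : IsProbabilityMeasure ν
  ac : ν ≪ volume
  left : DF ν a = 0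
  strict : ∀ x y, a ≤ x → x < y → DF ν x < 1 → DF ν x < DF ν y

/-- The class `C⁺_W`. -/
structure InClass (μ ν : Measure ℝ) (a : ℝ) : Prop where
  prob : IsProbabilityMeasure μ
  left_zero : ∀ y, y < 0 → DF μ y = 0
  left_pos : ∀ y, 0 < y → 0 < DF μ y
  integrable : Integrable (fun x : ℝ => x ^ 2) μ
  pos : 0 < ∫ x, x ^ 2 ∂μ
  order : Succeeds μ ν a

/-- The ratio `F⁻¹(p) / m_F`. -/
def ratio (μ : Measure ℝ) (p : ℝ) : ℝ := quantile μ p / Real.sqrt (∫ x, x ^ 2 ∂μ)

/-- The set of all ratios of the class. -/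
def ratios (ν : Measure ℝ) (a p : ℝ) : Set ℝ := {r | ∃ μ : Measure ℝ, InClass μ ν a ∧ r = ratio μ p}

/-! ### Distribution functions -/

section DFs

variable {μ : Measure ℝ} [IsProbabilityMeasure μ]

lemma DF_cdf (x : ℝ) : cdf μ x = DF μ x := cdf_eq_real μ x

lemma DF_mono : Monotone (DF μ) := fun x y h => measureReal_mono (Iic_subset_Iic.mpr h)

omit [IsProbabilityMeasure μ] in
lemma DF_nonneg (x : ℝ) : 0 ≤ DF μ x := measureReal_nonneg

lemma DF_le_one (x : ℝ) : DF μ x ≤ 1 := measureReal_le_one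

lemma DF_top {q : ℝ} (hq : q < 1) : ∃ x, q < DF μ x := by
  obtain ⟨x, hx⟩ := ((tendsto_cdf_atTop μ).eventually (lt_mem_nhds hq)).exists
  exact ⟨x, by rwa [DF_cdf] at hx⟩

lemma quant_iff {p : ℝ} (h0 : 0 < p) (h1 : p < 1) (x : ℝ) : quantile μ p ≤ x ↔ p ≤ DF μ x := by
  unfold quantile
  have hne : {t | p ≤ DF μ t}.Nonempty := by
    obtain ⟨t, ht⟩ := DF_top (μ := μ) h1
    exact ⟨t, ht.le⟩
  have hbdd : BddBelow {t | p ≤ DF μ t} := by
    obtain ⟨a, ha⟩ := Filter.eventually_atBot.1 ((tendsto_cdf_atBot μ).eventually (gt_mem_nhds h0))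
    refine ⟨a, fun t ht => ?_⟩
    by_contra h
    rw [not_le] at h
    have := ha t h.le
    rw [DF_cdf] at this
    exact absurd this (not_lt.2 ht)
  constructor
  · intro h
    have hq : p ≤ DF μ (sInf {t | p ≤ DF μ t}) := by
      have hrc : Tendsto (cdf μ) (𝓝[>] (sInf {t | p ≤ DF μ t})) (𝓝 (cdf μ (sInf {t | p ≤ DF μ t}))) :=
        ((cdf μ).right_continuous _).mono_left (nhdsWithin_mono _ Ioi_subset_Ici_self)
      rw [← DF_cdf]
      refine ge_of_tendsto hrc ?_
      filter_upwards [self_mem_nhdsWithin] with x hx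
      obtain ⟨t', ht', hlt⟩ := exists_lt_of_csInf_lt hne hx
      rw [DF_cdf]
      exact le_trans ht' (DF_mono hlt.le)
    exact hq.trans (DF_mono h)
  · intro h
    exact csInf_le hbdd h

end DFs

section base

variable {ν : Measure ℝ} {a : ℝ} (hν : IsBase ν a)

include hν

lemma W_cont : Continuous (DF ν) := by
  have := hν.prob
  have hna : ∀ x, ν {x} = 0 := fun x => hν.ac (by simp)
  have h1 : ∀ x, ContinuousAt (cdf ν) x := by
    intro x
    have h2 : (cdf ν).measure {x} = ENNReal.ofReal (cdf ν x - Function.leftLim (cdf ν) x) :=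
      StieltjesFunction.measure_singleton _ _
    rw [measure_cdf, hna, eq_comm, ENNReal.ofReal_eq_zero] at h2
    have h3 : Function.leftLim (cdf ν) x ≤ cdf ν x := (monotone_cdf ν).leftLim_le le_rfl
    have h4 : Function.leftLim (cdf ν) x = cdf ν x := by linarith
    rw [(monotone_cdf ν).continuousAt_iff_leftLim_eq_rightLim, h4, StieltjesFunction.rightLim_eq]
  have h2 : DF ν = cdf ν := by funext x; exact (DF_cdf x).symm
  rw [h2]
  exact continuous_iff_continuousAt.mpr h1

lemma W_surj {q : ℝ} (h0 : 0 ≤ q) (h1 : q < 1) : ∃ x, a ≤ x ∧ DF ν x = q := by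
  have := hν.prob
  obtain ⟨y, hy⟩ := DF_top (μ := ν) h1
  have hay : a ≤ y := by
    by_contra hcon
    push Not at hcon
    have := DF_mono (μ := ν) hcon.le
    rw [hν.left] at this
    linarith
  have h2 := intermediate_value_Icc hay (W_cont hν).continuousOn
  obtain ⟨x, hx, hxq⟩ := h2 ⟨by rw [hν.left]; exact h0, hy.le⟩
  exact ⟨x, hx.1, hxq⟩

lemma W_le_iff {x y : ℝ} (hx : a ≤ x) (hy : a ≤ y) (hx1 : DF ν x < 1) :
    DF ν x ≤ DF ν y ↔ x ≤ y := by
  have := hν.prob
  constructor
  · intro h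
    by_contra hcon
    push Not at hcon
    have h1 := DF_mono (μ := ν) hcon.le
    have h3 := hν.strict y x hy hcon (by linarith)
    linarith
  · intro h; exact DF_mono h

lemma winv_eq {x : ℝ} (hx : a ≤ x) (hx1 : DF ν x < 1) : winv ν a (DF ν x) = (x : EReal) := by
  unfold winv
  apply le_antisymm
  · exact sInf_le ⟨x, ⟨hx, le_rfl⟩, rfl⟩
  · apply le_sInf
    rintro _ ⟨y, ⟨hy1, hy2⟩, rfl⟩
    exact EReal.coe_le_coe_iff.mpr ((W_le_iff hν hx hy1 hx1).mp hy2)

lemma winv_ge {x q : ℝ} (h : DF ν x < q) : (x : EReal) ≤ winv ν a q := by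
  have := hν.prob
  unfold winv
  apply le_sInf
  rintro _ ⟨y, ⟨hy1, hy2⟩, rfl⟩
  have h1 : x ≤ y := by
    by_contra hcon
    push Not at hcon
    have := DF_mono (μ := ν) hcon.le
    linarith
  exact EReal.coe_le_coe_iff.mpr h1

omit hν in
lemma winv_ge_a (q : ℝ) : (a : EReal) ≤ winv ν a q := by
  unfold winv
  apply le_sInf
  rintro _ ⟨y, ⟨hy1, hy2⟩, rfl⟩
  exact EReal.coe_le_coe_iff.mpr hy1

end base

section cls

variable {μ ν : Measure ℝ} {a : ℝ} (hν : IsBase ν a) (hμ : InClass μ ν a)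

include hν hμ

lemma mem_supp {y : ℝ} (hy : 0 ≤ y) (h : ∀ z, z < y → DF μ z < 1) : y ∈ suppInt μ :=
  ⟨fun z hz => hμ.left_pos z (by linarith), h⟩

lemma zero_mem : (0 : ℝ) ∈ suppInt μ :=
  mem_supp hν hμ le_rfl (fun z hz => by rw [hμ.left_zero z hz]; norm_num)

/-- no jump away from the left endpoint -/
lemma DF_quant {q : ℝ} (h0 : 0 < q) (h1 : q < 1) (hv : 0 < quantile μ q) :
    DF μ (quantile μ q) = q := by
  have := hμ.prob
  have hprob := hν.prob
  obtain ⟨v, hvdef⟩ : ∃ v, v = quantile μ q := ⟨_, rfl⟩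
  rw [← hvdef] at hv ⊢
  have hge : q ≤ DF μ v := (quant_iff h0 h1 v).mp hvdef.symm.le
  have hlt : ∀ y, y < v → DF μ y < q := by
    intro y hy
    by_contra hcon
    push Not at hcon
    have := (quant_iff h0 h1 y).mpr hcon
    rw [← hvdef] at this
    linarith
  by_contra hne
  have hgt : q < DF μ v := lt_of_le_of_ne hge (Ne.symm hne)
  have hF1 := DF_le_one (μ := μ) v
  obtain ⟨x₁, hx₁a, hx₁⟩ := W_surj hν (q := (q + DF μ v) / 2) (by linarith) (by linarith)
  obtain ⟨xq, hxqa, hxq⟩ := W_surj hν h0.le h1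
  have hlt1 : xq < x₁ := by
    by_contra hcon
    push Not at hcon
    have := DF_mono (μ := ν) hcon
    linarith
  have hax : a < x₁ := by linarith
  obtain ⟨e, he⟩ : ∃ e, e = (x₁ - xq) / (2 * (x₁ - a)) := ⟨_, rfl⟩
  have he0 : 0 < e := by rw [he]; apply div_pos <;> linarith
  have he1 : e ≤ 1 / 2 := by
    rw [he, div_le_iff₀ (by linarith)]; linarith
  have hee : e * (x₁ - a) = (x₁ - xq) / 2 := by
    rw [he]; field_simp [show x₁ - a ≠ 0 by linarith]
  have hvs : v ∈ suppInt μ := mem_supp hν hμ hv.le (fun z hz => by linarith [hlt z hz])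
  have hord := hμ.order 0 (zero_mem hν hμ) v hvs e (1 - e) he0.le (by linarith) (by ring)
  have hsv : e * 0 + (1 - e) * v = (1 - e) * v := by ring
  rw [hsv] at hord
  have hlt2 : (1 - e) * v < v := by nlinarith
  have hF2 := hlt _ hlt2
  obtain ⟨g, hga, hg⟩ := W_surj hν (q := DF μ ((1 - e) * v)) (DF_nonneg _) (by linarith)
  have hgx : g < xq := by
    by_contra hcon
    push Not at hcon
    have := DF_mono (μ := ν) hcon
    linarith
  rw [← hg, winv_eq hν hga (by linarith)] at hord
  have h3 : (((e * a + (1 - e) * x₁ : ℝ)) : EReal) ≤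
      (e : EReal) * winv ν a (DF μ 0) + ((1 - e : ℝ) : EReal) * winv ν a (DF μ v) := by
    have h4 : ((e * a : ℝ) : EReal) ≤ (e : EReal) * winv ν a (DF μ 0) := by
      rw [EReal.coe_mul]
      exact mul_le_mul_of_nonneg_left (winv_ge_a _) (by exact_mod_cast he0.le)
    have h5 : (((1 - e) * x₁ : ℝ) : EReal) ≤ ((1 - e : ℝ) : EReal) * winv ν a (DF μ v) := by
      rw [EReal.coe_mul]
      exact mul_le_mul_of_nonneg_left (winv_ge hν (by linarith))
        (by exact_mod_cast (by linarith : (0:ℝ) ≤ 1 - e))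
    rw [EReal.coe_add]
    exact add_le_add h4 h5
  have h6 : e * a + (1 - e) * x₁ ≤ g := by exact_mod_cast h3.trans hord
  nlinarith

/-- domination by an affine transform -/
lemma dominate {p : ℝ} (h0 : 0 < p) (h1 : p < 1) (hv : 0 < quantile μ p) {xp : ℝ} (hxa : a ≤ xp)
    (hxp : DF ν xp = p) :
    ∃ k : ℝ, 0 < k ∧ a ≤ xp - k * quantile μ p ∧
      ∀ y, 0 ≤ y → DF μ y ≤ DF ν (xp - k * quantile μ p + k * y) := by
  have := hμ.prob
  have hprob := hν.prob
  obtain ⟨v, hvdef⟩ : ∃ v, v = quantile μ p := ⟨_, rfl⟩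
  have hFv : DF μ v = p := by rw [hvdef]; exact DF_quant hν hμ h0 h1 hv
  rw [← hvdef] at hv ⊢
  have hex : ∀ y, ∃ x, DF μ y < 1 → a ≤ x ∧ DF ν x = DF μ y := by
    intro y
    by_cases h : DF μ y < 1
    · obtain ⟨x, hx1, hx2⟩ := W_surj hν (DF_nonneg (μ := μ) y) h
      exact ⟨x, fun _ => ⟨hx1, hx2⟩⟩
    · exact ⟨0, fun h' => absurd h' h⟩
  choose g hg using hex
  have hgv : g v = xp := by
    obtain ⟨h2, h3⟩ := hg v (by rw [hFv]; exact h1)
    apply le_antisymm
    · exact (W_le_iff hν h2 hxa (by rw [h3, hFv]; exact h1)).mp (by rw [h3, hFv, hxp])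
    · exact (W_le_iff hν hxa h2 (by rw [hxp]; exact h1)).mp (by rw [h3, hFv, hxp])
  have hconc : ∀ y₁ y₂ s t : ℝ, 0 ≤ y₁ → 0 ≤ y₂ → DF μ y₁ < 1 → DF μ y₂ < 1 → 0 ≤ s → 0 ≤ t →
      s + t = 1 → s * g y₁ + t * g y₂ ≤ g (s * y₁ + t * y₂) := by
    intro y₁ y₂ s t hy1 hy2 hF1 hF2 hs ht hst
    have hm1 : y₁ ∈ suppInt μ := mem_supp hν hμ hy1 (fun z hz => (DF_mono hz.le).trans_lt hF1)
    have hm2 : y₂ ∈ suppInt μ := mem_supp hν hμ hy2 (fun z hz => (DF_mono hz.le).trans_lt hF2)
    have hF3 : DF μ (s * y₁ + t * y₂) < 1 := by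
      rcases le_total y₁ y₂ with h | h
      · refine (DF_mono (?_ : _ ≤ y₂)).trans_lt hF2
        have : s * y₁ ≤ s * y₂ := mul_le_mul_of_nonneg_left h hs
        have h5 : s * y₂ + t * y₂ = y₂ := by rw [← add_mul, hst, one_mul]
        linarith
      · refine (DF_mono (?_ : _ ≤ y₁)).trans_lt hF1
        have : t * y₂ ≤ t * y₁ := mul_le_mul_of_nonneg_left h ht
        have h5 : s * y₁ + t * y₁ = y₁ := by rw [← add_mul, hst, one_mul]
        linarith
    have hord := hμ.order y₁ hm1 y₂ hm2 s t hs ht hst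
    obtain ⟨a1, b1⟩ := hg y₁ hF1
    obtain ⟨a2, b2⟩ := hg y₂ hF2
    obtain ⟨a3, b3⟩ := hg _ hF3
    rw [← b1, ← b2, ← b3, winv_eq hν a1 (by rw [b1]; exact hF1),
      winv_eq hν a2 (by rw [b2]; exact hF2), winv_eq hν a3 (by rw [b3]; exact hF3)] at hord
    exact_mod_cast hord
  have hslope : ∀ y₁ y₂ : ℝ, 0 ≤ y₁ → y₁ < v → v < y₂ → DF μ y₂ < 1 →
      (g y₂ - xp) / (y₂ - v) ≤ (xp - g y₁) / (v - y₁) := by
    intro y₁ y₂ hy1 hy1v hvy2 hF2
    have hd : 0 < y₂ - y₁ := by linarith
    have hF1 : DF μ y₁ < 1 := (DF_mono (by linarith : y₁ ≤ y₂)).trans_lt hF2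
    have h2 := hconc y₁ y₂ ((y₂ - v) / (y₂ - y₁)) ((v - y₁) / (y₂ - y₁)) hy1 (by linarith) hF1 hF2
      (div_nonneg (by linarith) hd.le) (div_nonneg (by linarith) hd.le) (by
        rw [← add_div, div_eq_one_iff_eq hd.ne']; ring)
    have h3 : (y₂ - v) / (y₂ - y₁) * y₁ + (v - y₁) / (y₂ - y₁) * y₂ = v := by
      field_simp; ring
    rw [h3, hgv] at h2
    have h4 : (y₂ - v) * g y₁ + (v - y₁) * g y₂ ≤ xp * (y₂ - y₁) := by
      have h5 : (y₂ - v) / (y₂ - y₁) * g y₁ + (v - y₁) / (y₂ - y₁) * g y₂ =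
          ((y₂ - v) * g y₁ + (v - y₁) * g y₂) / (y₂ - y₁) := by ring
      rw [h5, div_le_iff₀ hd] at h2
      exact h2
    rw [div_le_div_iff₀ (by linarith) (by linarith)]
    nlinarith
  -- points above v
  have hup : ∀ q, p < q → q < 1 → 0 < quantile μ q ∧ DF μ (quantile μ q) = q ∧
      v < quantile μ q := by
    intro q hq hq1
    have h2 : v < quantile μ q := by
      by_contra hcon
      push Not at hcon
      have := (quant_iff (by linarith) hq1 v).mp hcon
      linarith
    exact ⟨by linarith, DF_quant hν hμ (by linarith) hq1 (by linarith), h2⟩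
  obtain ⟨B, hB⟩ : ∃ B : Set ℝ, B = {r | ∃ y, v < y ∧ DF μ y < 1 ∧ r = (g y - xp) / (y - v)} :=
    ⟨_, rfl⟩
  obtain ⟨hq1, hq2, hq3⟩ := hup ((p + 1) / 2) (by linarith) (by linarith)
  have hBmem : (g (quantile μ ((p + 1) / 2)) - xp) / (quantile μ ((p + 1) / 2) - v) ∈ B := by
    rw [hB]; exact ⟨_, hq3, by rw [hq2]; linarith, rfl⟩
  have hF0 : DF μ 0 < 1 := (DF_mono hv.le).trans_lt (by rw [hFv]; exact h1)
  have hBbdd : BddAbove B := by
    refine ⟨(xp - g 0) / (v - 0), ?_⟩
    rw [hB]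
    rintro r ⟨y, hy1, hy2, rfl⟩
    exact hslope 0 y le_rfl hv hy1 hy2
  obtain ⟨k, hk⟩ : ∃ k, k = sSup B := ⟨_, rfl⟩
  have hkpos : 0 < k := by
    have h2 : 0 < (g (quantile μ ((p + 1) / 2)) - xp) / (quantile μ ((p + 1) / 2) - v) := by
      apply div_pos _ (by linarith)
      obtain ⟨h3, h4⟩ := hg (quantile μ ((p + 1) / 2)) (by rw [hq2]; linarith)
      by_contra hcon
      have h5 := DF_mono (μ := ν) (by linarith : g (quantile μ ((p + 1) / 2)) ≤ xp)
      rw [h4, hq2, hxp] at h5
      linarith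
    rw [hk]
    exact h2.trans_le (le_csSup hBbdd hBmem)
  have hsup : ∀ y, 0 ≤ y → DF μ y < 1 → g y ≤ xp + k * (y - v) := by
    intro y hy hFy
    rcases lt_trichotomy y v with h | h | h
    · have h2 : k ≤ (xp - g y) / (v - y) := by
        rw [hk]
        apply csSup_le ⟨_, hBmem⟩
        rw [hB]
        rintro r ⟨z, hz1, hz2, rfl⟩
        exact hslope y z hy h hz1 hz2
      rw [le_div_iff₀ (by linarith)] at h2
      linarith
    · rw [h, hgv]; linarith
    · have h2 : (g y - xp) / (y - v) ≤ k := by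
        rw [hk]
        exact le_csSup hBbdd (by rw [hB]; exact ⟨y, h, hFy, rfl⟩)
      rw [div_le_iff₀ (by linarith)] at h2
      linarith
  refine ⟨k, hkpos, ?_, ?_⟩
  · have h2 := hsup 0 le_rfl hF0
    have h3 := (hg 0 hF0).1
    linarith
  · have hmain : ∀ y, 0 ≤ y → DF μ y < 1 → DF μ y ≤ DF ν (xp - k * v + k * y) := by
      intro y hy hFy
      rw [← (hg y hFy).2]
      apply DF_mono
      have := hsup y hy hFy
      linarith
    intro y hy
    by_cases hFy : DF μ y < 1
    · exact hmain y hy hFy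
    · push Not at hFy
      have hF1 : DF μ y = 1 := le_antisymm (DF_le_one _) hFy
      rw [hF1]
      apply le_of_forall_lt
      intro c hc
      obtain ⟨q, hqm, hq1'⟩ := exists_between (max_lt hc h1 : max c p < 1)
      obtain ⟨e1, e2, e3⟩ := hup q ((le_max_right _ _).trans_lt hqm) hq1'
      have e4 : quantile μ q ≤ y := (quant_iff (by linarith [(le_max_right c p).trans_lt hqm]) hq1' y).mpr
        (by rw [hF1]; exact hq1'.le)
      have e5 := hmain _ e1.le (by rw [e2]; exact hq1')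
      rw [e2] at e5
      have e6 : DF ν (xp - k * v + k * quantile μ q) ≤ DF ν (xp - k * v + k * y) := by
        apply DF_mono
        have := mul_le_mul_of_nonneg_left e4 hkpos.le
        linarith
      have e7 := (le_max_left c p).trans_lt hqm
      linarith

end cls

/-! ### Second moments -/

section moments

variable {μ ν : Measure ℝ} {a : ℝ}

lemma meas_Ioi [IsProbabilityMeasure μ] (x : ℝ) : μ (Ioi x) = ENNReal.ofReal (1 - DF μ x) := by
  unfold DF
  rw [← compl_Iic, prob_compl_eq_one_sub measurableSet_Iic, ENNReal.ofReal_sub _ measureReal_nonneg,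
    ENNReal.ofReal_one, ofReal_measureReal]

lemma trunc_cont (t : ℝ) : Continuous (fun x : ℝ => max (x - t) 0 ^ 2) := by fun_prop

lemma compare [IsProbabilityMeasure μ] [IsProbabilityMeasure ν] {k t : ℝ} (hk : 0 < k)
    (h : ∀ y, 0 ≤ y → DF μ y ≤ DF ν (t + k * y)) (hi : Integrable (fun x : ℝ => x ^ 2) μ) :
    Integrable (fun x => max (x - t) 0 ^ 2) ν ∧
    ∫ x, max (x - t) 0 ^ 2 ∂ν ≤ k ^ 2 * ∫ x, x ^ 2 ∂μ := by
  have h1 : ∫⁻ x, ENNReal.ofReal (max (x - t) 0 ^ 2) ∂ν ≤
      ∫⁻ x, ENNReal.ofReal (k ^ 2 * x ^ 2) ∂μ := by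
    rw [lintegral_eq_lintegral_meas_lt ν (Eventually.of_forall fun x => sq_nonneg _)
      (trunc_cont t).aemeasurable,
      lintegral_eq_lintegral_meas_lt μ (Eventually.of_forall fun x => by
        simp only [Pi.zero_apply]; positivity) (by fun_prop)]
    apply setLIntegral_mono' measurableSet_Ioi
    intro r hr
    have hr0 : (0:ℝ) < r := hr
    have hs := Real.sqrt_nonneg r
    have hs2 := Real.sq_sqrt hr0.le
    calc ν {x | r < max (x - t) 0 ^ 2} ≤ ν (Ioi (t + Real.sqrt r)) := by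
          apply measure_mono
          intro x hx
          have hx' : r < max (x - t) 0 ^ 2 := hx
          have h2 : Real.sqrt r < max (x - t) 0 := Real.sqrt_lt' (by
            by_contra hcon
            push Not at hcon
            have : max (x - t) 0 = 0 := le_antisymm hcon (le_max_right _ _)
            rw [this] at hx'
            norm_num at hx'
            linarith) |>.mpr hx'
          show t + Real.sqrt r < x
          rcases max_cases (x - t) 0 with ⟨h3, _⟩ | ⟨h3, _⟩
          · rw [h3] at h2; linarith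
          · rw [h3] at h2; linarith
      _ = ENNReal.ofReal (1 - DF ν (t + Real.sqrt r)) := meas_Ioi _
      _ ≤ ENNReal.ofReal (1 - DF μ (Real.sqrt r / k)) := by
          apply ENNReal.ofReal_le_ofReal
          have := h (Real.sqrt r / k) (by positivity)
          rw [mul_div_cancel₀ _ hk.ne'] at this
          linarith
      _ = μ (Ioi (Real.sqrt r / k)) := (meas_Ioi _).symm
      _ ≤ μ {x | r < k ^ 2 * x ^ 2} := by
          apply measure_mono
          intro x hx
          have hx' : Real.sqrt r / k < x := hx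
          rw [div_lt_iff₀ hk] at hx'
          show r < k ^ 2 * x ^ 2
          nlinarith
  have h2 : Integrable (fun x => k ^ 2 * x ^ 2) μ := hi.const_mul _
  rw [← ofReal_integral_eq_lintegral_ofReal h2 (Eventually.of_forall fun x => by
    simp only [Pi.zero_apply]; positivity)] at h1
  have h3 : Integrable (fun x => max (x - t) 0 ^ 2) ν := by
    refine ⟨(trunc_cont t).aestronglyMeasurable, ?_⟩
    rw [hasFiniteIntegral_iff_ofReal (Eventually.of_forall fun x => sq_nonneg _)]
    exact h1.trans_lt ENNReal.ofReal_lt_top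
  refine ⟨h3, ?_⟩
  rw [← ofReal_integral_eq_lintegral_ofReal h3 (Eventually.of_forall fun x => sq_nonneg _),
    integral_const_mul] at h1
  exact (ENNReal.ofReal_le_ofReal_iff (by
    have : 0 ≤ ∫ x, x ^ 2 ∂μ := integral_nonneg fun x => sq_nonneg x
    positivity)).mp h1

variable (hν : IsBase ν a)

include hν

lemma ae_ge : ∀ᵐ x ∂ν, a ≤ x := by
  have := hν.prob
  rw [ae_iff]
  have h1 : ν (Iic a) = 0 := by
    have h2 := hν.left
    unfold DF at h2
    rwa [measureReal_eq_zero_iff] at h2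
  refine measure_mono_null (fun x hx => ?_) h1
  simp only [mem_ofPred_eq, not_le] at hx
  exact hx.le

lemma trunc_int (hi : Integrable (fun x : ℝ => x ^ 2) ν) (t : ℝ) :
    Integrable (fun x => max (x - t) 0 ^ 2) ν := by
  have := hν.prob
  refine ((hi.const_mul 2).add (integrable_const (2 * t ^ 2))).mono'
    (trunc_cont t).aestronglyMeasurable (Eventually.of_forall fun x => ?_)
  rw [Real.norm_eq_abs, abs_of_nonneg (sq_nonneg _)]
  simp only [Pi.add_apply]
  rcases max_cases (x - t) 0 with ⟨h3, _⟩ | ⟨h3, _⟩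
  · rw [h3]; nlinarith [sq_nonneg (x + t)]
  · rw [h3]; nlinarith [sq_nonneg x, sq_nonneg t]

lemma trunc_pos (hi : Integrable (fun x : ℝ => x ^ 2) ν) {t : ℝ} (ht : DF ν t < 1) :
    0 < ∫ x, max (x - t) 0 ^ 2 ∂ν := by
  have := hν.prob
  rw [integral_pos_iff_support_of_nonneg (fun x => sq_nonneg _) (trunc_int hν hi t)]
  have h1 : 0 < ν (Ioi t) := by
    rw [meas_Ioi, ENNReal.ofReal_pos]; linarith
  refine h1.trans_le (measure_mono fun x hx => ?_)
  have hx' : t < x := hx
  rw [Function.mem_support]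
  have : 0 < max (x - t) 0 := lt_max_of_lt_left (by linarith)
  positivity

/-- the law of the positive part of `X - t` -/
def law (ν : Measure ℝ) (t : ℝ) : Measure ℝ := ν.map (fun x => max (x - t) 0)

omit hν in
lemma law_meas (t : ℝ) : Measurable (fun x : ℝ => max (x - t) 0) := by fun_prop

omit hν in
lemma law_DF {t y : ℝ} : DF (law ν t) y = if 0 ≤ y then DF ν (t + y) else 0 := by
  unfold DF law
  rw [measureReal_def, Measure.map_apply (law_meas t) measurableSet_Iic]
  split_ifs with hy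
  · congr 2
    ext x
    simp only [mem_preimage, mem_Iic, max_le_iff]
    constructor
    · rintro ⟨h1, _⟩; linarith
    · intro h; exact ⟨by linarith, hy⟩
  · have : (fun x : ℝ => max (x - t) 0) ⁻¹' Iic y = ∅ := by
      ext x
      simp only [mem_preimage, mem_Iic, max_le_iff, mem_empty_iff_false, iff_false]
      rintro ⟨_, h⟩; exact hy h
    rw [this]; simp

lemma law_class (hi : Integrable (fun x : ℝ => x ^ 2) ν) {t : ℝ} (hta : a ≤ t) (ht : DF ν t < 1) :
    InClass (law ν t) ν a := by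
  have := hν.prob
  have hprob : IsProbabilityMeasure (law ν t) := Measure.isProbabilityMeasure_map (law_meas t).aemeasurable
  have hwinv : ∀ y ∈ suppInt (law ν t), winv ν a (DF (law ν t) y) = ((t + y : ℝ) : EReal) := by
    intro y hy
    have hy0 : 0 ≤ y := by
      by_contra hcon
      push Not at hcon
      have h1 := hy.1 (y / 2) (by linarith)
      rw [law_DF, if_neg (by linarith)] at h1
      exact lt_irrefl _ h1
    rw [law_DF, if_pos hy0]
    by_cases h1 : DF ν (t + y) < 1
    · exact winv_eq hν (by linarith) h1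
    · push Not at h1
      unfold winv
      apply le_antisymm
      · exact sInf_le ⟨t + y, ⟨by linarith, le_rfl⟩, rfl⟩
      · apply le_sInf
        rintro _ ⟨x, ⟨hx1, hx2⟩, rfl⟩
        refine EReal.coe_le_coe_iff.mpr ?_
        by_contra hcon
        push Not at hcon
        have hFx : 1 ≤ DF ν x := h1.trans hx2
        rcases lt_or_ge x t with hxt | hxt
        · have := DF_mono (μ := ν) hxt.le
          linarith
        · have h2 := hy.2 (x - t) (by linarith)
          rw [law_DF, if_pos (by linarith), show t + (x - t) = x by ring] at h2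
          linarith
  refine ⟨hprob, ?_, ?_, ?_, ?_, ?_⟩
  · intro y hy; rw [law_DF, if_neg (by linarith)]
  · intro y hy
    rw [law_DF, if_pos hy.le]
    have h1 := hν.strict a (t + y) le_rfl (by linarith) (by rw [hν.left]; norm_num)
    rwa [hν.left] at h1
  · unfold law
    rw [integrable_map_measure (by fun_prop) (law_meas t).aemeasurable]
    exact trunc_int hν hi t
  · unfold law
    rw [integral_map (law_meas t).aemeasurable (by fun_prop)]
    exact trunc_pos hν hi ht
  · intro x hx y hy s r hs hr hsr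
    have hconv : s * x + r * y ∈ suppInt (law ν t) := by
      have hc : ∀ {u v : ℝ}, u ≤ v → u ∈ suppInt (law ν t) → v ∈ suppInt (law ν t) →
          ∀ z, u ≤ z → z ≤ v → z ∈ suppInt (law ν t) := by
        intro u v huv hu hv z hz1 hz2
        exact ⟨fun w hw => hu.1 w (by linarith), fun w hw => hv.2 w (by linarith)⟩
      rcases le_total x y with h | h
      · apply hc h hx hy
        · have : r * x ≤ r * y := mul_le_mul_of_nonneg_left h hr
          have h5 : s * x + r * x = x := by rw [← add_mul, hsr, one_mul]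
          linarith
        · have : s * x ≤ s * y := mul_le_mul_of_nonneg_left h hs
          have h5 : s * y + r * y = y := by rw [← add_mul, hsr, one_mul]
          linarith
      · apply hc h hy hx
        · have : s * y ≤ s * x := mul_le_mul_of_nonneg_left h hs
          have h5 : s * y + r * y = y := by rw [← add_mul, hsr, one_mul]
          linarith
        · have : r * y ≤ r * x := mul_le_mul_of_nonneg_left h hr
          have h5 : s * x + r * x = x := by rw [← add_mul, hsr, one_mul]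
          linarith
    rw [hwinv x hx, hwinv y hy, hwinv _ hconv, ← EReal.coe_mul, ← EReal.coe_mul, ← EReal.coe_add,
      EReal.coe_le_coe_iff]
    have h5 : s * t + r * t = t := by rw [← add_mul, hsr, one_mul]
    linarith

lemma law_quantile {p xp : ℝ} (h0 : 0 < p) (h1 : p < 1) (hxa : a ≤ xp) (hxp : DF ν xp = p) {t : ℝ}
    (hta : a ≤ t) (htx : t ≤ xp) : quantile (law ν t) p = xp - t := by
  have := hν.prob
  have hprob : IsProbabilityMeasure (law ν t) := Measure.isProbabilityMeasure_map (law_meas t).aemeasurable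
  apply eq_of_forall_ge_iff
  intro c
  rw [quant_iff h0 h1, law_DF]
  split_ifs with hc
  · rw [← hxp, W_le_iff hν hxa (by linarith) (by linarith)]
    constructor <;> intro h <;> linarith
  · constructor
    · intro h; linarith
    · intro h; linarith

lemma law_ratio {p xp : ℝ} (h0 : 0 < p) (h1 : p < 1) (hxa : a ≤ xp) (hxp : DF ν xp = p) {t : ℝ}
    (hta : a ≤ t) (htx : t ≤ xp) :
    ratio (law ν t) p = (xp - t) / Real.sqrt (∫ x, max (x - t) 0 ^ 2 ∂ν) := by
  unfold ratio
  rw [law_quantile hν h0 h1 hxa hxp hta htx]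
  unfold law
  rw [integral_map (law_meas t).aemeasurable (by fun_prop)]

/-- integral of the product -/
lemma prod_int (hi : Integrable (fun x : ℝ => x ^ 2) ν) (t u : ℝ) :
    Integrable (fun x => max (x - t) 0 * max (x - u) 0) ν := by
  have := hν.prob
  refine ((trunc_int hν hi t).add (trunc_int hν hi u)).mono'
    (by apply Continuous.aestronglyMeasurable; fun_prop) (Eventually.of_forall fun x => ?_)
  rw [Real.norm_eq_abs, abs_of_nonneg (mul_nonneg (le_max_right _ _) (le_max_right _ _))]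
  simp only [Pi.add_apply]
  nlinarith [sq_nonneg (max (x - t) 0 - max (x - u) 0), sq_nonneg (max (x - t) 0),
    sq_nonneg (max (x - u) 0)]

lemma trunc1_int (hi : Integrable (fun x : ℝ => x ^ 2) ν) (u : ℝ) :
    Integrable (fun x => max (x - u) 0) ν := by
  have := hν.prob
  refine ((trunc_int hν hi u).add (integrable_const 1)).mono'
    (by apply Continuous.aestronglyMeasurable; fun_prop) (Eventually.of_forall fun x => ?_)
  rw [Real.norm_eq_abs, abs_of_nonneg (le_max_right _ _)]
  simp only [Pi.add_apply]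
  nlinarith [sq_nonneg (max (x - u) 0 - 1)]

/-- `∫ (x-u)₊ (x - xp) = M(u) - (xp-u) m(u)` -/
lemma phi_eq (hi : Integrable (fun x : ℝ => x ^ 2) ν) (u xp : ℝ) :
    ∫ x, max (x - u) 0 * (x - xp) ∂ν =
      ∫ x, max (x - u) 0 ^ 2 ∂ν - (xp - u) * ∫ x, max (x - u) 0 ∂ν := by
  rw [← integral_const_mul, ← integral_sub (trunc_int hν hi u) ((trunc1_int hν hi u).const_mul _)]
  congr 1
  funext x
  rcases max_cases (x - u) 0 with ⟨h3, _⟩ | ⟨h3, _⟩
  · rw [h3]; ring
  · rw [h3]; ring

/-- the key inequality: `(xp - t)² M(u) ≤ (xp - u)² M(t)`, with a remainder -/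
lemma key (hi : Integrable (fun x : ℝ => x ^ 2) ν) {t u xp : ℝ} (ht : t < xp) (hu : u < xp)
    (hopt : (u ≤ t ∧ 0 ≤ ∫ x, max (x - u) 0 * (x - xp) ∂ν) ∨
      ∫ x, max (x - u) 0 * (x - xp) ∂ν = 0) :
    ∫ x, (max (x - t) 0 - (xp - t) / (xp - u) * max (x - u) 0) ^ 2 ∂ν ≤
      ∫ x, max (x - t) 0 ^ 2 ∂ν - ((xp - t) / (xp - u)) ^ 2 * ∫ x, max (x - u) 0 ^ 2 ∂ν := by
  have := hν.prob
  obtain ⟨c, hc⟩ : ∃ c, c = (xp - t) / (xp - u) := ⟨_, rfl⟩
  obtain ⟨D, hD⟩ : ∃ D, D = xp - u := ⟨_, rfl⟩
  have hD0 : 0 < D := by linarith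
  have hc0 : 0 < c := by rw [hc]; apply div_pos <;> linarith
  rw [← hc]
  have i1 := trunc_int hν hi t
  have i2 := trunc_int hν hi u
  have i3 := prod_int hν hi t u
  have i4 := trunc1_int hν hi u
  have e1 : ∫ x, (max (x - t) 0 - c * max (x - u) 0) ^ 2 ∂ν =
      ∫ x, max (x - t) 0 ^ 2 ∂ν - 2 * c * ∫ x, max (x - t) 0 * max (x - u) 0 ∂ν +
        c ^ 2 * ∫ x, max (x - u) 0 ^ 2 ∂ν := by
    rw [← integral_const_mul, ← integral_const_mul, ← integral_sub i1 (i3.const_mul _)]
    have i5 : Integrable (fun x => max (x - t) 0 ^ 2 - 2 * c * (max (x - t) 0 * max (x - u) 0)) ν :=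
      i1.sub (i3.const_mul _)
    rw [← integral_add i5 (i2.const_mul _)]
    congr 1
    funext x
    ring
  have hJ : ∫ x, max (x - u) 0 ^ 2 ∂ν + (u - t) * ∫ x, max (x - u) 0 ∂ν ≤
      ∫ x, max (x - t) 0 * max (x - u) 0 ∂ν := by
    rw [← integral_const_mul, ← integral_add i2 (i4.const_mul _)]
    apply integral_mono (i2.add (i4.const_mul _)) i3
    intro x
    show max (x - u) 0 ^ 2 + (u - t) * max (x - u) 0 ≤ max (x - t) 0 * max (x - u) 0
    have h1 : 0 ≤ max (x - u) 0 := le_max_right _ _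
    have h2 : x - t ≤ max (x - t) 0 := le_max_left _ _
    have h3 := mul_le_mul_of_nonneg_right h2 h1
    rcases max_cases (x - u) 0 with ⟨h4, _⟩ | ⟨h4, _⟩
    · rw [h4] at h3 ⊢; nlinarith
    · rw [h4]; simp
  have hphi := phi_eq hν hi u xp
  obtain ⟨Mu, hMu⟩ : ∃ Mu, Mu = ∫ x, max (x - u) 0 ^ 2 ∂ν := ⟨_, rfl⟩
  obtain ⟨mu, hmu⟩ : ∃ mu, mu = ∫ x, max (x - u) 0 ∂ν := ⟨_, rfl⟩
  obtain ⟨J, hJd⟩ : ∃ J, J = ∫ x, max (x - t) 0 * max (x - u) 0 ∂ν := ⟨_, rfl⟩
  rw [e1]
  rw [← hMu, ← hmu, ← hD] at hphi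
  rw [← hMu, ← hmu, ← hJd] at hJ
  rw [← hMu, ← hJd]
  have hcD : c * D = D + (u - t) := by rw [hc, ← hD, div_mul_cancel₀ _ hD0.ne', hD]; ring
  have hJc : c * Mu ≤ J := by
    have h1 : D * (c * Mu) ≤ D * J := by
      have h2 : D * (c * Mu) = D * Mu + (u - t) * Mu := by
        calc D * (c * Mu) = (c * D) * Mu := by ring
          _ = _ := by rw [hcD]; ring
      rw [h2]
      have h3 : D * (Mu + (u - t) * mu) ≤ D * J := mul_le_mul_of_nonneg_left hJ hD0.le
      rcases hopt with ⟨h4, h5⟩ | h4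
      · rw [hphi] at h5
        have h6 : (u - t) * Mu ≤ (u - t) * (D * mu) := by
          apply mul_le_mul_of_nonpos_left _ (by linarith)
          linarith
        nlinarith
      · rw [hphi] at h4
        have h6 : Mu = D * mu := by linarith
        nlinarith
    exact le_of_mul_le_mul_left h1 hD0
  nlinarith

lemma key_ratio (hi : Integrable (fun x : ℝ => x ^ 2) ν) {t u xp : ℝ} (ht : t < xp) (hu : u < xp)
    (hx1 : DF ν xp < 1)
    (hopt : (u ≤ t ∧ 0 ≤ ∫ x, max (x - u) 0 * (x - xp) ∂ν) ∨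
      ∫ x, max (x - u) 0 * (x - xp) ∂ν = 0) :
    (xp - t) / Real.sqrt (∫ x, max (x - t) 0 ^ 2 ∂ν) ≤
      (xp - u) / Real.sqrt (∫ x, max (x - u) 0 ^ 2 ∂ν) := by
  have := hν.prob
  have h1 := key hν hi ht hu hopt
  have h2 : 0 ≤ ∫ x, (max (x - t) 0 - (xp - t) / (xp - u) * max (x - u) 0) ^ 2 ∂ν :=
    integral_nonneg fun x => sq_nonneg _
  have hMt := trunc_pos hν hi (t := t) ((DF_mono ht.le).trans_lt hx1)
  have hMu := trunc_pos hν hi (t := u) ((DF_mono hu.le).trans_lt hx1)
  obtain ⟨Mu, hMud⟩ : ∃ Mu, Mu = ∫ x, max (x - u) 0 ^ 2 ∂ν := ⟨_, rfl⟩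
  obtain ⟨Mt, hMtd⟩ : ∃ Mt, Mt = ∫ x, max (x - t) 0 ^ 2 ∂ν := ⟨_, rfl⟩
  rw [← hMud] at h1 hMu ⊢
  rw [← hMtd] at h1 hMt ⊢
  have h3 : ((xp - t) / (xp - u)) ^ 2 * Mu ≤ Mt := by linarith
  have hDu : 0 < xp - u := by linarith
  have hDt : 0 < xp - t := by linarith
  rw [div_le_div_iff₀ (Real.sqrt_pos.mpr hMt) (Real.sqrt_pos.mpr hMu)]
  have h4 : (xp - t) ^ 2 * Mu ≤ (xp - u) ^ 2 * Mt := by
    rw [div_pow, div_mul_eq_mul_div, div_le_iff₀ (by positivity)] at h3
    linarith
  have h5 : ((xp - t) * Real.sqrt Mu) ^ 2 ≤ ((xp - u) * Real.sqrt Mt) ^ 2 := by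
    rw [mul_pow, mul_pow, Real.sq_sqrt hMu.le, Real.sq_sqrt hMt.le]; exact h4
  exact (pow_le_pow_iff_left₀ (by positivity) (by positivity) two_ne_zero).mp h5

/-- upper bound for all members of the class -/
lemma upper {μ : Measure ℝ} (hμ : InClass μ ν a) (hi : Integrable (fun x : ℝ => x ^ 2) ν) {p xp : ℝ}
    (h0 : 0 < p) (h1 : p < 1) (hxa : a < xp) (hxp : DF ν xp = p) {r : ℝ} (hr0 : 0 ≤ r)
    (hr : ∀ t, a ≤ t → t < xp → (xp - t) / Real.sqrt (∫ x, max (x - t) 0 ^ 2 ∂ν) ≤ r) :
    ratio μ p ≤ r := by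
  have := hν.prob
  have hprob := hμ.prob
  rcases le_or_gt (quantile μ p) 0 with hv | hv
  · refine le_trans ?_ hr0
    unfold ratio
    exact div_nonpos_of_nonpos_of_nonneg hv (Real.sqrt_nonneg _)
  · obtain ⟨k, hk, hka, hdom⟩ := dominate hν hμ h0 h1 hv hxa.le hxp
    obtain ⟨h2, h3⟩ := compare hk hdom hμ.integrable
    have ht : xp - k * quantile μ p < xp := by
      have := mul_pos hk hv
      linarith
    refine le_trans ?_ (hr _ hka ht)
    have hMt := trunc_pos hν hi (t := xp - k * quantile μ p) ((DF_mono ht.le).trans_lt (by linarith))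
    unfold ratio
    rw [div_le_div_iff₀ (Real.sqrt_pos.mpr hμ.pos) (Real.sqrt_pos.mpr hMt)]
    have h4 : Real.sqrt (∫ x, max (x - (xp - k * quantile μ p)) 0 ^ 2 ∂ν) ≤
        k * Real.sqrt (∫ x, x ^ 2 ∂μ) := by
      rw [Real.sqrt_le_left (by positivity), mul_pow, Real.sq_sqrt hμ.pos.le]
      exact h3
    have h5 := mul_le_mul_of_nonneg_left h4 hv.le
    have h6 : xp - (xp - k * quantile μ p) = k * quantile μ p := by ring
    rw [h6]
    linarith

end moments

/-- **Sharp bounds for `F⁻¹(p)/m_F` over the distributions with left endpoint 0 succeeding `W` in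
the convex transform order.** -/
theorem result (ν : Measure ℝ) (a p : ℝ) (hν : IsBase ν a) (h0 : 0 < p) (h1 : p < 1) :
    (¬ Integrable (fun x : ℝ => x ^ 2) ν → ratios ν a p = ∅) ∧
    (Integrable (fun x : ℝ => x ^ 2) ν →
      IsLeast (ratios ν a p) 0 ∧
      (0 ≤ ∫ x, (x - a) * (x - quantile ν p) ∂ν →
        IsGreatest (ratios ν a p) ((quantile ν p - a) / Real.sqrt (∫ x, (x - a) ^ 2 ∂ν))) ∧
      (∫ x, (x - a) * (x - quantile ν p) ∂ν < 0 →
        ∃! t : ℝ, t ∈ Ioo a (quantile ν p) ∧ ∫ x, max (x - t) 0 * (x - quantile ν p) ∂ν = 0) ∧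
      ∀ t ∈ Ioo a (quantile ν p), ∫ x, max (x - t) 0 * (x - quantile ν p) ∂ν = 0 →
        IsGreatest (ratios ν a p)
          ((quantile ν p - t) / Real.sqrt (∫ x, max (x - t) 0 ^ 2 ∂ν))) := by
  have hprob := hν.prob
  obtain ⟨xp, hxa', hxp⟩ := W_surj hν h0.le h1
  have hxa : a < xp := by
    rcases hxa'.lt_or_eq with h | h
    · exact h
    · rw [← h, hν.left] at hxp; linarith
  have hx1 : DF ν xp < 1 := by linarith
  have hq : quantile ν p = xp := by
    apply le_antisymm
    · rw [quant_iff h0 h1, hxp]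
    · have h2 : p ≤ DF ν (quantile ν p) := (quant_iff h0 h1 _).mp le_rfl
      have h3 : a ≤ quantile ν p := by
        by_contra hcon
        push Not at hcon
        have := DF_mono (μ := ν) hcon.le
        rw [hν.left] at this
        linarith
      exact (W_le_iff hν hxa.le h3 hx1).mp (by rw [hxp]; exact h2)
  rw [hq]
  have hmaxa : ∀ᵐ x ∂ν, max (x - a) 0 = x - a := by
    filter_upwards [ae_ge hν] with x hx
    exact max_eq_left (by linarith)
  refine ⟨fun hni => ?_, fun hi => ⟨⟨?_, ?_⟩, ?_, ?_, ?_⟩⟩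
  · -- infinite second moment
    rw [Set.eq_empty_iff_forall_notMem]
    rintro r ⟨μ, hμ, -⟩
    have hprobμ := hμ.prob
    -- some quantile is positive
    have hex : ∃ y, 0 < y ∧ DF μ y < 1 := by
      by_contra hcon
      push Not at hcon
      have h2 : ∀ᵐ x ∂μ, x = 0 := by
        have h3 : ∀ᵐ x ∂μ, ∀ n : ℕ, x ≤ 1 / ((n : ℝ) + 1) := by
          rw [ae_all_iff]
          intro n
          rw [ae_iff]
          have h4 : {x : ℝ | ¬ x ≤ 1 / ((n : ℝ) + 1)} = Ioi (1 / ((n : ℝ) + 1)) := by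
            ext x; simp
          rw [h4, meas_Ioi, ENNReal.ofReal_eq_zero]
          have := hcon (1 / ((n : ℝ) + 1)) (by positivity)
          linarith
        have h5 : ∀ᵐ x ∂μ, ∀ n : ℕ, -(1 / ((n : ℝ) + 1)) < x := by
          rw [ae_all_iff]
          intro n
          rw [ae_iff]
          have h4 : {x : ℝ | ¬ -(1 / ((n : ℝ) + 1)) < x} = Iic (-(1 / ((n : ℝ) + 1))) := by
            ext x; simp
          rw [h4]
          have h6 := hμ.left_zero (-(1 / ((n : ℝ) + 1))) (by
            have : (0:ℝ) < 1 / ((n : ℝ) + 1) := by positivity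
            linarith)
          unfold DF at h6
          rwa [measureReal_eq_zero_iff] at h6
        filter_upwards [h3, h5] with x hx1 hx2
        have l1 : x ≤ 0 := ge_of_tendsto tendsto_one_div_add_atTop_nhds_zero_nat
          (Eventually.of_forall hx1)
        have l2 : 0 ≤ x := by
          have := tendsto_one_div_add_atTop_nhds_zero_nat (𝕜 := ℝ)
          have h7 : Tendsto (fun n : ℕ => -(1 / ((n : ℝ) + 1))) atTop (𝓝 (-0)) := this.neg
          rw [neg_zero] at h7
          exact le_of_tendsto h7 (Eventually.of_forall fun n => (hx2 n).le)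
        linarith
      have h3 : ∫ x, x ^ 2 ∂μ = 0 := by
        apply integral_eq_zero_of_ae
        filter_upwards [h2] with x hx
        simp [hx]
      have := hμ.pos
      linarith
    obtain ⟨y, hy0, hy1⟩ := hex
    obtain ⟨q, hq1, hq2⟩ := exists_between hy1
    have hq0 : 0 < q := (DF_nonneg (μ := μ) y).trans_lt hq1
    have hvq : 0 < quantile μ q := by
      by_contra hcon
      push Not at hcon
      have h2 := (quant_iff hq0 hq2 y).mp (hcon.trans hy0.le)
      linarith
    obtain ⟨xq, hxqa, hxq⟩ := W_surj hν hq0.le hq2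
    obtain ⟨k, hk, hka, hdom⟩ := dominate hν hμ hq0 hq2 hvq hxqa hxq
    obtain ⟨h2, -⟩ := compare hk hdom hμ.integrable
    apply hni
    obtain ⟨t, ht⟩ : ∃ t, t = xq - k * quantile μ q := ⟨_, rfl⟩
    rw [← ht] at h2
    refine ((h2.const_mul 2).add (integrable_const (2 * t ^ 2 + a ^ 2))).mono'
      (by fun_prop) ?_
    filter_upwards [ae_ge hν] with x hx
    rw [Real.norm_eq_abs, abs_of_nonneg (sq_nonneg _)]
    simp only [Pi.add_apply]
    rcases max_cases (x - t) 0 with ⟨h3, _⟩ | ⟨h3, h4⟩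
    · rw [h3]; nlinarith [sq_nonneg (x - 2 * t), sq_nonneg a]
    · rw [h3]
      have h5 : x ^ 2 ≤ max (a ^ 2) (t ^ 2) := by
        rcases le_total 0 x with hx0 | hx0
        · exact le_max_of_le_right (by nlinarith)
        · exact le_max_of_le_left (by nlinarith)
      rcases max_cases (a ^ 2) (t ^ 2) with ⟨h6, _⟩ | ⟨h6, _⟩
      · rw [h6] at h5; nlinarith [sq_nonneg t]
      · rw [h6] at h5; nlinarith [sq_nonneg a, sq_nonneg t]
  · refine ⟨law ν xp, law_class hν hi hxa.le hx1, ?_⟩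
    rw [law_ratio hν h0 h1 hxa.le hxp hxa.le le_rfl, sub_self, zero_div]
  · rintro r ⟨μ, hμ, rfl⟩
    have hprobμ := hμ.prob
    unfold ratio
    apply div_nonneg _ (Real.sqrt_nonneg _)
    by_contra hcon
    push Not at hcon
    obtain ⟨y, hy1, hy2⟩ := exists_between hcon
    have h2 := (quant_iff h0 h1 y).mp hy1.le
    rw [hμ.left_zero y hy2] at h2
    linarith
  · intro hphi
    have e1 : ∫ x, (x - a) ^ 2 ∂ν = ∫ x, max (x - a) 0 ^ 2 ∂ν := by
      apply integral_congr_ae
      filter_upwards [hmaxa] with x hx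
      simp only [hx]
    have e2 : ∫ x, (x - a) * (x - xp) ∂ν = ∫ x, max (x - a) 0 * (x - xp) ∂ν := by
      apply integral_congr_ae
      filter_upwards [hmaxa] with x hx
      simp only [hx]
    rw [e1]
    rw [e2] at hphi
    constructor
    · refine ⟨law ν a, law_class hν hi le_rfl (by rw [hν.left]; norm_num), ?_⟩
      rw [law_ratio hν h0 h1 hxa.le hxp le_rfl hxa.le]
    · rintro r ⟨μ, hμ, rfl⟩
      apply upper hν hμ hi h0 h1 hxa hxp
      · apply div_nonneg (by linarith) (Real.sqrt_nonneg _)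
      · intro t ht1 ht2
        exact key_ratio hν hi ht2 hxa hx1 (Or.inl ⟨ht1, hphi⟩)
  · intro hphi
    have e2 : ∫ x, (x - a) * (x - xp) ∂ν = ∫ x, max (x - a) 0 * (x - xp) ∂ν := by
      apply integral_congr_ae
      filter_upwards [hmaxa] with x hx
      simp only [hx]
    rw [e2] at hphi
    have hcont : ContinuousOn (fun t => ∫ x, max (x - t) 0 * (x - xp) ∂ν) (Icc a xp) := by
      apply continuousOn_of_dominated (bound := fun x => 3 * (x ^ 2 + a ^ 2 + xp ^ 2))
      · intro t _
        apply Continuous.aestronglyMeasurable; fun_prop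
      · intro t ht
        refine Eventually.of_forall fun x => ?_
        rw [Real.norm_eq_abs, abs_mul]
        have h2 : |max (x - t) 0| ≤ |x| + |t| := by
          rw [abs_of_nonneg (le_max_right _ _)]
          apply max_le
          · have := le_abs_self x
            have := neg_abs_le t
            linarith
          · positivity
        have h3 : |x - xp| ≤ |x| + |xp| := abs_sub _ _
        have h4 : |t| ≤ |a| + |xp| := by
          rcases abs_cases t with ⟨h5, _⟩ | ⟨h5, _⟩
          · rw [h5]; have := le_abs_self xp; have := abs_nonneg a; linarith [ht.2]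
          · rw [h5]; have := neg_abs_le a; have := abs_nonneg xp; linarith [ht.1]
        have h5 : |max (x - t) 0| * |x - xp| ≤ (|x| + |a| + |xp|) * (|x| + |xp|) :=
          mul_le_mul (by linarith) h3 (abs_nonneg _) (by positivity)
        refine h5.trans ?_
        have e3 := sq_abs x
        have e4 := sq_abs a
        have e5 := sq_abs xp
        nlinarith [sq_nonneg (|x| - |xp|), sq_nonneg (|x| - |a|), sq_nonneg (|a| - |xp|),
          sq_nonneg (|x|), sq_nonneg (|a|), sq_nonneg (|xp|)]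
      · exact ((hi.add (integrable_const _)).add (integrable_const _)).const_mul 3
      · refine Eventually.of_forall fun x => ?_
        fun_prop
    have hend : 0 < ∫ x, max (x - xp) 0 * (x - xp) ∂ν := by
      rw [phi_eq hν hi, sub_self, zero_mul, sub_zero]
      exact trunc_pos hν hi hx1
    obtain ⟨t, ht, htz⟩ := intermediate_value_Icc hxa.le hcont ⟨hphi.le, hend.le⟩
    have hta : a < t := by
      rcases ht.1.lt_or_eq with h | h
      · exact h
      · rw [← h] at htz; simp only at htz; linarith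
    have htx : t < xp := by
      rcases ht.2.lt_or_eq with h | h
      · exact h
      · rw [h] at htz; simp only at htz; linarith
    -- uniqueness
    have huniq : ∀ t u : ℝ, a < t → t < u → u < xp →
        ∫ x, max (x - t) 0 * (x - xp) ∂ν = 0 → ∫ x, max (x - u) 0 * (x - xp) ∂ν = 0 → False := by
      intro t u hat htu hux h2 h3
      have k1 := key hν hi (t := t) (u := u) (xp := xp) (by linarith) hux (Or.inr h3)
      have k2 := key_ratio hν hi (t := u) (u := t) (xp := xp) hux (by linarith) hx1 (Or.inr h2)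
      have hMt := trunc_pos hν hi (t := t) ((DF_mono (by linarith : t ≤ xp)).trans_lt hx1)
      have hMu := trunc_pos hν hi (t := u) ((DF_mono hux.le).trans_lt hx1)
      obtain ⟨Mu, hMud⟩ : ∃ Mu, Mu = ∫ x, max (x - u) 0 ^ 2 ∂ν := ⟨_, rfl⟩
      obtain ⟨Mt, hMtd⟩ : ∃ Mt, Mt = ∫ x, max (x - t) 0 ^ 2 ∂ν := ⟨_, rfl⟩
      rw [← hMud] at hMu
      rw [← hMtd] at hMt
      rw [← hMud, ← hMtd] at k1 k2
      have hDu : 0 < xp - u := by linarith
      have hDt : 0 < xp - t := by linarith
      have k3 : Mt ≤ ((xp - t) / (xp - u)) ^ 2 * Mu := by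
        rw [div_le_div_iff₀ (Real.sqrt_pos.mpr hMu) (Real.sqrt_pos.mpr hMt)] at k2
        have k4 : ((xp - u) * Real.sqrt Mt) ^ 2 ≤ ((xp - t) * Real.sqrt Mu) ^ 2 :=
          pow_le_pow_left₀ (by positivity) k2 2
        rw [mul_pow, mul_pow, Real.sq_sqrt hMu.le, Real.sq_sqrt hMt.le] at k4
        rw [div_pow, div_mul_eq_mul_div, le_div_iff₀ (by positivity)]
        linarith
      have k5 : ∫ x, (max (x - t) 0 - (xp - t) / (xp - u) * max (x - u) 0) ^ 2 ∂ν = 0 :=
        le_antisymm (by linarith) (integral_nonneg fun x => sq_nonneg _)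
      have i0 : Integrable (fun x => (max (x - t) 0 - (xp - t) / (xp - u) * max (x - u) 0) ^ 2) ν := by
        have i1 := trunc_int hν hi t
        have i2 := trunc_int hν hi u
        have i3 := prod_int hν hi t u
        have : (fun x => (max (x - t) 0 - (xp - t) / (xp - u) * max (x - u) 0) ^ 2) =
            fun x => max (x - t) 0 ^ 2 - 2 * ((xp - t) / (xp - u)) *
              (max (x - t) 0 * max (x - u) 0) + ((xp - t) / (xp - u)) ^ 2 * max (x - u) 0 ^ 2 := by
          funext x; ring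
        rw [this]
        exact (i1.sub (i3.const_mul _)).add (i2.const_mul _)
      rw [integral_eq_zero_iff_of_nonneg (fun x => sq_nonneg _) i0] at k5
      have k6 : ν (Ioc t u) = 0 := by
        rw [Filter.EventuallyEq, ae_iff] at k5
        refine measure_mono_null (fun x hx => ?_) k5
        simp only [Pi.zero_apply, mem_ofPred_eq]
        rw [max_eq_left (by linarith [hx.1]), max_eq_right (by linarith [hx.2]), mul_zero, sub_zero]
        have : 0 < x - t := by linarith [hx.1]
        positivity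
      have k7 := hν.strict t u hat.le htu ((DF_mono (by linarith : t ≤ xp)).trans_lt hx1)
      have k8 : DF ν u ≤ DF ν t := by
        unfold DF
        rw [← Iic_union_Ioc_eq_Iic htu.le]
        refine (measureReal_union_le _ _).trans ?_
        rw [measureReal_def (s := Ioc t u), k6]
        simp
      linarith
    refine ⟨t, ⟨⟨hta, htx⟩, htz⟩, ?_⟩
    rintro u ⟨⟨hua, hux⟩, huz⟩
    rcases lt_trichotomy u t with h | h | h
    · exact (huniq u t hua h htx huz htz).elim
    · exact h
    · exact (huniq t u hta h hux htz huz).elim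
  · intro t ht htz
    constructor
    · refine ⟨law ν t, law_class hν hi ht.1.le ((DF_mono ht.2.le).trans_lt hx1), ?_⟩
      rw [law_ratio hν h0 h1 hxa.le hxp ht.1.le ht.2.le]
    · rintro r ⟨μ, hμ, rfl⟩
      apply upper hν hμ hi h0 h1 hxa hxp
      · apply div_nonneg (by linarith [ht.2]) (Real.sqrt_nonneg _)
      · intro s hs1 hs2
        exact key_ratio hν hi hs2 ht.2 hx1 (Or.inr htz)

end Pool.Agent.Results.MP_4978a0_pr.SucceedingBounds
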